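import Pool.Agent.Helper26.SMU.MLE

/-!
# Existence of the MLE over scale mixtures of uniforms
-/

open MeasureTheory ProbabilityTheory Filter Topology
open scoped ENNReal

namespace Pool.Agent.Helper26.SMU

variable {d n : ℕ}

/-- the nonempty sets of sample indices -/
abbrev JJ (n : ℕ) := {s : Finset (Fin n) // s.Nonempty}

/-- the discrete mixing measure with weight `w s` at the join of the points of `s` -/
noncomputable def discr (x : Fin n → Fin d → ℝ) (w : JJ n → ℝ) : Measure (Fin d → ℝ) :=
  ∑ s : JJ n, ENNReal.ofReal (w s) • Measure.dirac (joinOf x s.1 s.2)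

open Classical in
/-- coefficient `1{x_i ≤ z_s}/|z_s|` -/
noncomputable def coef (x : Fin n → Fin d → ℝ) (i : Fin n) (s : JJ n) : ℝ :=
  if x i ≤ joinOf x s.1 s.2 then (∏ r, joinOf x s.1 s.2 r)⁻¹ else 0

theorem coef_nonneg {x : Fin n → Fin d → ℝ} (hx : ∀ i, x i ∈ orthant d) (i : Fin n) (s : JJ n) :
    0 ≤ coef x i s := by
  unfold coef
  split_ifs
  · have := prod_pos_of_mem (joinOf_mem hx s.2)
    positivity
  · exact le_rfl

theorem dens_dirac_join {x : Fin n → Fin d → ℝ} (i : Fin n) (s : JJ n) :
    dens (Measure.dirac (joinOf x s.1 s.2)) (x i) = ENNReal.ofReal (coef x i s) := by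
  by_cases h : x i ≤ joinOf x s.1 s.2
  · rw [dens_dirac h, coef, if_pos h]
  · rw [dens_eq_indicator, lintegral_dirac' _ ((measurable_weight d).indicator
      (measurableSet_ge (x i))), coef, if_neg h, ENNReal.ofReal_zero]
    exact Set.indicator_of_notMem (show joinOf x s.1 s.2 ∉ {y | x i ≤ y} from h) _

theorem isMixing_discr {x : Fin n → Fin d → ℝ} (hx : ∀ i, x i ∈ orthant d) {w : JJ n → ℝ}
    (hw : w ∈ stdSimplex ℝ (JJ n)) : IsMixing (discr x w) := by
  refine ⟨⟨?_⟩, ?_⟩
  · rw [discr, Measure.finsetSum_apply]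
    simp only [Measure.coe_smul, Pi.smul_apply, measure_univ, smul_eq_mul, mul_one]
    rw [← ENNReal.ofReal_sum_of_nonneg fun i _ => hw.1 i, hw.2, ENNReal.ofReal_one]
  · rw [discr, Measure.finsetSum_apply]
    apply Finset.sum_eq_zero
    intro s _
    rw [Measure.coe_smul, Pi.smul_apply, (isMixing_dirac (joinOf_mem hx s.2)).supp, smul_zero]

theorem dens_discr {x : Fin n → Fin d → ℝ} (hx : ∀ i, x i ∈ orthant d) {w : JJ n → ℝ}
    (hw : w ∈ stdSimplex ℝ (JJ n)) (i : Fin n) :
    dens (discr x w) (x i) = ENNReal.ofReal (∑ s, w s * coef x i s) := by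
  rw [dens_eq_indicator, discr, lintegral_finsetSum_measure,
    ENNReal.ofReal_sum_of_nonneg fun s _ => mul_nonneg (hw.1 s) (coef_nonneg hx i s)]
  apply Finset.sum_congr rfl
  intro s _
  rw [lintegral_smul_measure, ← dens_eq_indicator, dens_dirac_join, smul_eq_mul,
    ENNReal.ofReal_mul (hw.1 s)]

open Classical in
/-- the set of `y` which dominate exactly the sample points in `s` -/
def cell (x : Fin n → Fin d → ℝ) (s : JJ n) : Set (Fin d → ℝ) :=
  {y | Finset.univ.filter (fun i => x i ≤ y) = s.1}

theorem measurableSet_cell (x : Fin n → Fin d → ℝ) (s : JJ n) : MeasurableSet (cell x s) := by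
  classical
  have : cell x s = ⋂ i : Fin n, {y | x i ≤ y ↔ i ∈ s.1} := by
    ext y
    simp only [cell, Set.mem_ofPred_eq, Set.mem_iInter, Finset.ext_iff, Finset.mem_filter,
      Finset.mem_univ, true_and]
  rw [this]
  apply MeasurableSet.iInter
  intro i
  by_cases hi : i ∈ s.1
  · have h : {y : Fin d → ℝ | x i ≤ y ↔ i ∈ s.1} = {y | x i ≤ y} := by
      ext y; simp [hi]
    rw [h]
    exact measurableSet_ge (x i)
  · have h : {y : Fin d → ℝ | x i ≤ y ↔ i ∈ s.1} = {y | x i ≤ y}ᶜ := by
      ext y; simp [hi]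
    rw [h]
    exact (measurableSet_ge (x i)).compl

theorem cell_disjoint (x : Fin n → Fin d → ℝ) :
    Pairwise (Function.onFun Disjoint (cell x)) := by
  intro s t hst
  rw [Function.onFun, Set.disjoint_left]
  intro y hy hy'
  apply hst
  apply Subtype.ext
  rw [← (show _ = s.1 from hy), ← (show _ = t.1 from hy')]

theorem dens_le_cell {x : Fin n → Fin d → ℝ} (hx : ∀ i, x i ∈ orthant d)
    (G : Measure (Fin d → ℝ)) (i : Fin n) :
    dens G (x i) ≤ ∑ s, G (cell x s) * ENNReal.ofReal (coef x i s) := by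
  classical
  calc dens G (x i) = ∫⁻ y, {y | x i ≤ y}.indicator (fun y => ENNReal.ofReal (∏ i, y i)⁻¹) y ∂G :=
        dens_eq_indicator G (x i)
    _ ≤ ∫⁻ y, ∑ s, (cell x s).indicator (fun _ => ENNReal.ofReal (coef x i s)) y ∂G := by
        apply lintegral_mono
        intro y
        by_cases h : x i ≤ y
        · have hi : i ∈ Finset.univ.filter (fun i => x i ≤ y) := by simp [h]
          set s : JJ n := ⟨Finset.univ.filter (fun i => x i ≤ y), ⟨i, hi⟩⟩ with hs
          have hys : y ∈ cell x s := rfl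
          have hz1 : x i ≤ joinOf x s.1 s.2 := le_joinOf x s.2 hi
          have hz2 : joinOf x s.1 s.2 ≤ y := joinOf_le x s.2 fun j hj => by
            simpa [hs] using hj
          refine le_trans ?_ (Finset.single_le_sum (fun _ _ => zero_le) (Finset.mem_univ s))
          rw [Set.indicator_of_mem hys]
          dsimp only
          rw [Set.indicator_of_mem (show y ∈ {y | x i ≤ y} from h), coef, if_pos hz1]
          apply ENNReal.ofReal_le_ofReal
          exact inv_anti₀ (prod_pos_of_mem (joinOf_mem hx s.2))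
            (prod_mono_of_mem (joinOf_mem hx s.2) hz2)
        · dsimp only
          rw [Set.indicator_of_notMem (show y ∉ {y | x i ≤ y} from h)]
          exact zero_le
    _ = ∑ s, G (cell x s) * ENNReal.ofReal (coef x i s) := by
        rw [lintegral_finsetSum]
        · apply Finset.sum_congr rfl
          intro s _
          rw [lintegral_indicator (measurableSet_cell x s), setLIntegral_const, mul_comm]
        · intro s _
          exact measurable_const.indicator (measurableSet_cell x s)

theorem exists_weights [NeZero n] {x : Fin n → Fin d → ℝ} (hx : ∀ i, x i ∈ orthant d)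
    {G : Measure (Fin d → ℝ)} (hG : IsMixing G) :
    ∃ w ∈ stdSimplex ℝ (JJ n), ∀ i, dens G (x i) ≤ dens (discr x w) (x i) := by
  classical
  have := hG.prob
  have hu : (Finset.univ : Finset (Fin n)).Nonempty := ⟨0, Finset.mem_univ _⟩
  set t : JJ n := ⟨Finset.univ, hu⟩ with ht
  have hsum : ∑ s, G (cell x s) ≤ 1 := by
    rw [← tsum_fintype (L := SummationFilter.unconditional _),
      ← measure_iUnion (cell_disjoint x) (measurableSet_cell x)]
    exact prob_le_one
  have hsum' : ∑ s, (G (cell x s)).toReal ≤ 1 := by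
    rw [← ENNReal.toReal_sum fun s _ => measure_ne_top G _]
    exact ENNReal.toReal_le_of_le_ofReal zero_le_one (by simpa using hsum)
  set ρ : ℝ := 1 - ∑ s, (G (cell x s)).toReal with hρ
  have hρ0 : 0 ≤ ρ := by rw [hρ]; linarith
  set w : JJ n → ℝ := fun s => (G (cell x s)).toReal + if s = t then ρ else 0 with hw
  have hws : w ∈ stdSimplex ℝ (JJ n) := by
    constructor
    · intro s
      simp only [hw]
      split_ifs <;> positivity
    · simp only [hw]
      rw [Finset.sum_add_distrib, Finset.sum_ite_eq' Finset.univ t]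
      simp [hρ]
  refine ⟨w, hws, fun i => ?_⟩
  rw [dens_discr hx hws, ENNReal.ofReal_sum_of_nonneg fun s _ =>
    mul_nonneg (hws.1 s) (coef_nonneg hx i s)]
  refine (dens_le_cell hx G i).trans (Finset.sum_le_sum fun s _ => ?_)
  rw [ENNReal.ofReal_mul (hws.1 s)]
  gcongr
  rw [← ENNReal.ofReal_toReal (measure_ne_top G (cell x s))]
  apply ENNReal.ofReal_le_ofReal
  simp only [hw]
  split_ifs <;> linarith

/-- Existence of the MLE for every sample in the orthant. -/
theorem exists_isMLE [NeZero n] {x : Fin n → Fin d → ℝ} (hx : ∀ i, x i ∈ orthant d) :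
    ∃ G, IsMLE x G := by
  classical
  set F : (JJ n → ℝ) → ℝ := fun w => ∏ i, ∑ s, w s * coef x i s with hF
  have hcont : Continuous F := by
    apply continuous_finsetProd
    intro i _
    apply continuous_finsetSum
    intro s _
    exact (continuous_apply s).mul continuous_const
  have hu : (Finset.univ : Finset (Fin n)).Nonempty := ⟨0, Finset.mem_univ _⟩
  have hne : (stdSimplex ℝ (JJ n)).Nonempty :=
    ⟨_, single_mem_stdSimplex ℝ (⟨Finset.univ, hu⟩ : JJ n)⟩
  obtain ⟨w, hw, hmax⟩ := (isCompact_stdSimplex ℝ (JJ n)).exists_isMaxOn hne hcont.continuousOn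
  have hprod : ∀ v ∈ stdSimplex ℝ (JJ n), ∏ i, dens (discr x v) (x i) = ENNReal.ofReal (F v) := by
    intro v hv
    rw [hF, ENNReal.ofReal_prod_of_nonneg]
    · exact Finset.prod_congr rfl fun i _ => dens_discr hx hv i
    · intro i _
      exact Finset.sum_nonneg fun s _ => mul_nonneg (hv.1 s) (coef_nonneg hx i s)
  refine ⟨discr x w, (isMLE_iff _ _).2 ⟨isMixing_discr hx hw, fun G' hG' => ?_⟩⟩
  obtain ⟨v, hv, hle⟩ := exists_weights hx hG'
  calc ∏ i, dens G' (x i) ≤ ∏ i, dens (discr x v) (x i) :=
        Finset.prod_le_prod' fun i _ => hle i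
    _ = ENNReal.ofReal (F v) := hprod v hv
    _ ≤ ENNReal.ofReal (F w) := ENNReal.ofReal_le_ofReal (hmax hv)
    _ = _ := (hprod w hw).symm

end Pool.Agent.Helper26.SMU
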