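import Pool.Agent.Helper26.SMU.Prob
import Pool.Agent.Helper26.SMU.Exists

/-!
# The mixing distribution and the good event
-/

open MeasureTheory ProbabilityTheory Filter Topology
open scoped ENNReal

namespace Pool.Agent.Helper26.SMU

/-- entry `α` at coordinate `0`, `β` at coordinate `1`, `0` elsewhere -/
def two (d : ℕ) (α β : ℝ) : Fin d → ℝ :=
  fun r => if (r : ℕ) = 0 then α else if (r : ℕ) = 1 then β else 0

theorem sum_two {d : ℕ} (hd : 2 ≤ d) (α β : ℝ) : ∑ r, two d α β r = α + β := by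
  obtain ⟨k, rfl⟩ : ∃ k, d = k + 2 := ⟨d - 2, by omega⟩
  rw [Fin.sum_univ_succ, Fin.sum_univ_succ]
  simp [two]

/-- `∑ k^7 (a_k - v)_+` in `[0,∞]` -/
noncomputable def TE (a : ℕ → ℝ) (v : ℝ) : ℝ≥0∞ :=
  ∑' k : ℕ, ENNReal.ofReal ((k : ℝ) ^ 7 * max (a k - v) 0)

/-- `∑ k^7 (a_k - v)_+` as a real number -/
noncomputable def TT (a : ℕ → ℝ) (v : ℝ) : ℝ := (TE a v).toReal

theorem measurable_TT (a : ℕ → ℝ) : Measurable (TT a) := by
  unfold TT TE
  apply Measurable.ennreal_toReal
  apply Measurable.tsum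
  intro k
  apply Measurable.ennreal_ofReal
  exact ((measurable_const.sub measurable_id).max measurable_const).const_mul _

theorem TE_ne_top {a : ℕ → ℝ} (ha : Tendsto a atTop (𝓝 0)) {v : ℝ} (hv : 0 < v) :
    TE a v ≠ ⊤ := by
  obtain ⟨N, hN⟩ := eventually_atTop.1 ((tendsto_order.1 ha).2 v hv)
  have h : TE a v = ∑ k ∈ Finset.range N, ENNReal.ofReal ((k : ℝ) ^ 7 * max (a k - v) 0) := by
    unfold TE
    apply tsum_eq_sum
    intro k hk
    rw [Finset.mem_range, not_lt] at hk
    have := hN k hk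
    rw [max_eq_right (by linarith), mul_zero, ENNReal.ofReal_zero]
  rw [h]
  exact ENNReal.sum_ne_top.2 fun k _ => ENNReal.ofReal_ne_top

theorem TT_sub {a : ℕ → ℝ} (ha : Tendsto a atTop (𝓝 0)) {n : ℕ} {v w : ℝ} (hv : 0 < v)
    (hvw : v ≤ w) (hw : w ≤ a n) : (n : ℝ) ^ 7 * (w - v) ≤ TT a v - TT a w := by
  have h1 : TE a w + ENNReal.ofReal ((n : ℝ) ^ 7 * (w - v)) ≤ TE a v := by
    have h2 : ENNReal.ofReal ((n : ℝ) ^ 7 * (w - v)) =
        ∑' k : ℕ, if k = n then ENNReal.ofReal ((n : ℝ) ^ 7 * (w - v)) else 0 := by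
      rw [tsum_ite_eq]
    rw [h2]
    unfold TE
    rw [← ENNReal.tsum_add]
    apply ENNReal.tsum_le_tsum
    intro k
    by_cases hk : k = n
    · subst hk
      rw [if_pos rfl, ← ENNReal.ofReal_add (by positivity)
        (mul_nonneg (by positivity) (by linarith))]
      apply ENNReal.ofReal_le_ofReal
      rw [max_eq_left (by linarith), max_eq_left (by linarith)]
      apply le_of_eq
      ring
    · rw [if_neg hk, add_zero]
      apply ENNReal.ofReal_le_ofReal
      apply mul_le_mul_of_nonneg_left _ (by positivity)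
      exact max_le_max (by linarith) le_rfl
  have h3 := ENNReal.toReal_mono (TE_ne_top ha hv) h1
  rw [ENNReal.toReal_add (TE_ne_top ha (hv.trans_le hvw)) ENNReal.ofReal_ne_top,
    ENNReal.toReal_ofReal (mul_nonneg (by positivity) (by linarith))] at h3
  unfold TT
  linarith

/-- the curve of scales -/
noncomputable def curve (d : ℕ) (a : ℕ → ℝ) (v : ℝ) : Fin d → ℝ :=
  fun r => Real.exp (two d (-TT a v) (TT a v) r)

theorem measurable_curve (d : ℕ) (a : ℕ → ℝ) : Measurable (curve d a) := by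
  apply measurable_pi_lambda
  intro r
  unfold curve
  apply Real.measurable_exp.comp
  unfold two
  split_ifs
  · exact (measurable_TT a).neg
  · exact measurable_TT a
  · exact measurable_const

theorem prod_curve {d : ℕ} (hd : 2 ≤ d) (a : ℕ → ℝ) (v : ℝ) : ∏ r, curve d a v r = 1 := by
  unfold curve
  rw [← Real.exp_sum, sum_two hd]
  simp

/-- the mixing distribution of the counterexample -/
noncomputable def G0 (d : ℕ) (a : ℕ → ℝ) : Measure (Fin d → ℝ) := unif.map (curve d a)

theorem isMixing_G0 (d : ℕ) (a : ℕ → ℝ) : IsMixing (G0 d a) := by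
  refine ⟨Measure.isProbabilityMeasure_map (measurable_curve d a).aemeasurable, ?_⟩
  rw [G0, Measure.map_apply (measurable_curve d a) (measurableSet_orthant d).compl]
  have : curve d a ⁻¹' (orthant d)ᶜ = ∅ := by
    ext v
    simp only [Set.mem_preimage, Set.mem_compl_iff, Set.mem_empty_iff_false, iff_false, not_not]
    intro r
    exact Real.exp_pos _
  rw [this, measure_empty]

theorem atOrigin_G0 {d : ℕ} (hd : 2 ≤ d) (a : ℕ → ℝ) : atOrigin (G0 d a) = 1 := by
  rw [atOrigin, G0, lintegral_map (measurable_weight d) (measurable_curve d a)]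
  simp [prod_curve hd]

/-- the observation as a function of the latent variables -/
noncomputable def obs (d : ℕ) (a : ℕ → ℝ) (p : (Fin d → ℝ) × ℝ) : Fin d → ℝ :=
  fun r => p.1 r * curve d a p.2 r

theorem measurable_obs (d : ℕ) (a : ℕ → ℝ) : Measurable (obs d a) := by
  apply measurable_pi_lambda
  intro r
  exact ((measurable_pi_apply r).comp measurable_fst).mul
    ((measurable_pi_apply r).comp ((measurable_curve d a).comp measurable_snd))

theorem law_G0 (d : ℕ) (a : ℕ → ℝ) : law (G0 d a) = (lat d).map (obs d a) := by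
  rw [law_eq_map (isMixing_G0 d a), G0, lat]
  conv_lhs => rw [← Measure.map_id (μ := unifPi d)]
  rw [Measure.map_prod_map _ _ measurable_id (measurable_curve d a),
    Measure.map_map (measurable_mulMap d) (measurable_id.prodMap (measurable_curve d a))]
  rfl

theorem prod_obs {d : ℕ} (hd : 2 ≤ d) (a : ℕ → ℝ) (p : (Fin d → ℝ) × ℝ) :
    ∏ r, obs d a p r = ∏ r, p.1 r := by
  unfold obs
  rw [Finset.prod_mul_distrib, prod_curve hd, mul_one]

theorem pi_law (d : ℕ) (a : ℕ → ℝ) (n : ℕ) :
    Measure.pi (fun _ : Fin n => law (G0 d a)) =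
      (Measure.pi (fun _ : Fin n => lat d)).map (fun ω i => obs d a (ω i)) := by
  have h : ∀ _ : Fin n, SigmaFinite ((lat d).map (obs d a)) := fun _ => by
    have : IsProbabilityMeasure ((lat d).map (obs d a)) :=
      Measure.isProbabilityMeasure_map (measurable_obs d a).aemeasurable
    infer_instance
  rw [Measure.pi_map_pi (μ := fun _ : Fin n => lat d) (f := fun _ => obs d a)
    (fun _ => (measurable_obs d a).aemeasurable)]
  rw [law_G0]

/-- separation of two points with well separated parameters -/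
theorem pair_sep {d : ℕ} (hd : 2 ≤ d) {a : ℕ → ℝ} (ha : Tendsto a atTop (𝓝 0)) {n : ℕ}
    (hn : 1 ≤ n) {b : ℝ} (hb : 0 < b) (hbn : b ^ d = (n : ℝ)⁻¹) {p q : (Fin d → ℝ) × ℝ}
    (hp : ∀ r, b ≤ p.1 r) (hq : ∀ r, b ≤ q.1 r) (hp2 : 0 < p.2) (hpq : p.2 ≤ q.2)
    (hqa : q.2 ≤ a n) (hsep : ((n : ℝ) ^ 5)⁻¹ ≤ q.2 - p.2) :
    (n : ℝ) ≤ ∏ r, max (obs d a p r) (obs d a q r) := by
  have hn' : (1 : ℝ) ≤ n := by exact_mod_cast hn
  have hT : 2 * Real.log n ≤ TT a p.2 - TT a q.2 := by
    refine le_trans ?_ (TT_sub ha hp2 hpq hqa)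
    have h1 : Real.log n ≤ n - 1 := Real.log_le_sub_one_of_pos (by linarith)
    calc 2 * Real.log n ≤ (n : ℝ) ^ 2 := by nlinarith [sq_nonneg ((n : ℝ) - 1)]
      _ = (n : ℝ) ^ 7 * ((n : ℝ) ^ 5)⁻¹ := by
          field_simp
      _ ≤ (n : ℝ) ^ 7 * (q.2 - p.2) := by gcongr
  have hprod : ∏ r, (b * Real.exp (two d (-TT a q.2) (TT a p.2) r)) ≤
      ∏ r, max (obs d a p r) (obs d a q r) := by
    apply Finset.prod_le_prod
    · intro r _
      positivity
    · intro r _
      by_cases h0 : (r : ℕ) = 0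
      · refine le_trans ?_ (le_max_right _ _)
        unfold obs curve two
        rw [if_pos h0, if_pos h0]
        exact mul_le_mul_of_nonneg_right (hq r) (Real.exp_pos _).le
      · refine le_trans ?_ (le_max_left _ _)
        unfold obs curve two
        rw [if_neg h0, if_neg h0]
        split_ifs
        · exact mul_le_mul_of_nonneg_right (hp r) (Real.exp_pos _).le
        · exact mul_le_mul_of_nonneg_right (hp r) (Real.exp_pos _).le
  refine le_trans ?_ hprod
  rw [Finset.prod_mul_distrib, ← Real.exp_sum, sum_two hd, Finset.prod_const, Finset.card_univ,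
    Fintype.card_fin, hbn]
  calc (n : ℝ) = (n : ℝ)⁻¹ * (n : ℝ) ^ 2 := by field_simp
    _ = (n : ℝ)⁻¹ * Real.exp (2 * Real.log n) := by
        rw [mul_comm 2 (Real.log n), Real.exp_mul, Real.exp_log (by linarith)]
        norm_cast
    _ ≤ (n : ℝ)⁻¹ * Real.exp (-TT a q.2 + TT a p.2) := by
        gcongr
        linarith

/-- The event (for the sample) on which the MLE at the origin is large. -/
def AA (d n : ℕ) (c : ℝ) : Set (Fin n → Fin d → ℝ) :=
  {x | ∀ i, x i ∈ orthant d} ∩ ⋃ I : Finset (Fin n),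
    {x | ∀ i ∈ I, ∀ j ∈ I, i ≠ j → (n : ℝ) ≤ ∏ r, max (x i r) (x j r)} ∩
    {x | c < ∑ i ∈ I, (4 * n * ∏ r, x i r)⁻¹}

theorem measurableSet_AA (d n : ℕ) (c : ℝ) : MeasurableSet (AA d n c) := by
  apply MeasurableSet.inter
  · have : {x : Fin n → Fin d → ℝ | ∀ i, x i ∈ orthant d} = ⋂ i, {x | x i ∈ orthant d} := by
      ext x; simp
    rw [this]
    exact MeasurableSet.iInter fun i => measurable_pi_apply i (measurableSet_orthant d)
  · apply MeasurableSet.iUnion
    intro I
    have hxr : ∀ (i : Fin n) (r : Fin d), Measurable fun x : Fin n → Fin d → ℝ => x i r :=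
      fun i r => (measurable_pi_apply r).comp (measurable_pi_apply i)
    apply MeasurableSet.inter
    · have : {x : Fin n → Fin d → ℝ | ∀ i ∈ I, ∀ j ∈ I, i ≠ j →
          (n : ℝ) ≤ ∏ r, max (x i r) (x j r)} = ⋂ i : Fin n, ⋂ (_ : i ∈ I), ⋂ j : Fin n,
          ⋂ (_ : j ∈ I), ⋂ (_ : i ≠ j), {x | (n : ℝ) ≤ ∏ r, max (x i r) (x j r)} := by
        ext x; simp only [Set.mem_iInter]; rfl
      rw [this]
      refine MeasurableSet.iInter fun i => MeasurableSet.iInter fun _ => MeasurableSet.iInter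
        fun j => MeasurableSet.iInter fun _ => MeasurableSet.iInter fun _ => ?_
      apply measurableSet_le measurable_const
      exact Finset.measurable_prod _ fun r _ => (hxr i r).max (hxr j r)
    · apply measurableSet_lt measurable_const
      apply Finset.measurable_sum
      intro i _
      apply Measurable.inv
      apply Measurable.const_mul
      exact Finset.measurable_prod _ fun r _ => hxr i r

/-- The conclusion for the MLE on the event `AA`. -/
theorem AA_spec {d n : ℕ} [NeZero n] {c : ℝ} {x : Fin n → Fin d → ℝ} (hx : x ∈ AA d n c)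
    {κ : ℝ} (hκ0 : 0 ≤ κ) (hκ : κ + 1 ≤ c) :
    (∃ G, IsMLE x G) ∧ ∀ G, IsMLE x G → ENNReal.ofReal κ < atOrigin G := by
  obtain ⟨hxo, hx2⟩ := hx
  obtain ⟨I, hI1, hI2⟩ := Set.mem_iUnion.1 hx2
  have hxo' : ∀ i, x i ∈ orthant d := hxo
  have hI2' : c < ∑ i ∈ I, (4 * n * ∏ r, x i r)⁻¹ := hI2
  refine ⟨exists_isMLE hxo', fun G hG => ?_⟩
  refine lt_of_lt_of_le ?_ (hG.sum_le_atOrigin hxo' I hI1)
  rw [ENNReal.ofReal_lt_ofReal_iff (by linarith)]
  linarith

/-- Main estimate: the event `AA` has probability close to one. -/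
theorem prob_AA {d : ℕ} (hd : 2 ≤ d) {a : ℕ → ℝ} (ha0 : ∀ n, 0 < a n)
    (ha : Tendsto a atTop (𝓝 0)) {n : ℕ} (hn : 2 ≤ n) (ha1 : a n ≤ 1) :
    1 - ENNReal.ofReal (2 / (n : ℝ) ^ 3 + 4 / (a n * (Real.log n / d) ^ (2 * d))) ≤
      Measure.pi (fun _ : Fin n => law (G0 d a))
        (AA d n (a n * (Real.log n / d) ^ d / 8)) := by
  classical
  have hn' : (2 : ℝ) ≤ n := by exact_mod_cast hn
  have hn0 : (0 : ℝ) < n := by linarith
  have hd' : (0 : ℝ) < d := by
    have : 0 < d := by omega
    exact_mod_cast this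
  have hL : 0 < Real.log n := Real.log_pos (by linarith)
  have han := ha0 n
  -- the truncation level
  set b : ℝ := Real.exp (-(Real.log n / d)) with hb
  have hb0 : 0 < b := Real.exp_pos _
  have hb1 : b ≤ 1 := by
    rw [hb, Real.exp_le_one_iff]
    have : 0 < Real.log n / d := by positivity
    linarith
  have hlogb : -Real.log b = Real.log n / d := by rw [hb, Real.log_exp, neg_neg]
  have hbd : b ^ d = (n : ℝ)⁻¹ := by
    rw [hb, ← Real.exp_nat_mul]
    have : (d : ℝ) * -(Real.log n / d) = -Real.log n := by field_simp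
    rw [this, Real.exp_neg, Real.exp_log hn0]
  set m : ℝ := (Real.log n / d) ^ d * a n with hm
  have hm0 : 0 < m := by positivity
  set Q := Measure.pi (fun _ : Fin n => lat d) with hQ
  set B1 : Set (Fin n → (Fin d → ℝ) × ℝ) :=
    {ω | ∃ i j, i ≠ j ∧ |(ω i).2 - (ω j).2| < ((n : ℝ) ^ 5)⁻¹} with hB1
  set B2 : Set (Fin n → (Fin d → ℝ) × ℝ) := {ω | ∑ i, xi (a n) b (ω i) ≤ n * m / 2} with hB2
  set B3 : Set (Fin n → (Fin d → ℝ) × ℝ) :=
    {ω | ¬ ∀ i, (∀ r, 0 < (ω i).1 r) ∧ 0 < (ω i).2} with hB3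
  have hQ1 : Q B1 ≤ ENNReal.ofReal (2 / (n : ℝ) ^ 3) := by
    refine (close_pairs _).trans (ENNReal.ofReal_le_ofReal ?_)
    apply le_of_eq
    field_simp
  have hQ2 : Q B2 ≤ ENNReal.ofReal (4 / (a n * (Real.log n / d) ^ (2 * d))) := by
    refine (cheb (lat d) (measurable_xi (a n) b) (xi_le hb0)
      (integral_xi_sq hb0 hb1 han.le ha1)
      (by rw [integral_xi hb0 hb1 han.le ha1, hlogb]) hm0 (by omega)).trans
      (ENNReal.ofReal_le_ofReal ?_)
    apply le_of_eq
    rw [inv_pow, hbd, inv_inv, hm]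
    have h1 : 0 < Real.log n / d := by positivity
    field_simp
    ring
  have hQ3 : Q B3 = 0 := by
    have h1 : ∀ᵐ u : ℝ ∂unif, 0 < u := by
      unfold unif
      filter_upwards [ae_restrict_mem measurableSet_Ioc] with u hu using hu.1
    have h2 : ∀ᵐ p : (Fin d → ℝ) × ℝ ∂(lat d), (∀ r, 0 < p.1 r) ∧ 0 < p.2 := by
      have h3 : ∀ᵐ u : Fin d → ℝ ∂(unifPi d), ∀ r, 0 < u r := by
        rw [eventually_all]
        intro r
        exact (Measure.quasiMeasurePreserving_eval (fun _ : Fin d => unif) r).ae h1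
      have h4 : ∀ᵐ p : (Fin d → ℝ) × ℝ ∂(lat d), ∀ r, 0 < p.1 r :=
        Measure.quasiMeasurePreserving_fst.ae h3
      have h5 : ∀ᵐ p : (Fin d → ℝ) × ℝ ∂(lat d), 0 < p.2 :=
        Measure.quasiMeasurePreserving_snd.ae h1
      filter_upwards [h4, h5] with p hp hp' using ⟨hp, hp'⟩
    have h6 : ∀ᵐ ω ∂Q, ∀ i, (∀ r, 0 < (ω i).1 r) ∧ 0 < (ω i).2 := by
      rw [eventually_all]
      intro i
      exact (Measure.quasiMeasurePreserving_eval (fun _ : Fin n => lat d) i).ae h2
    exact h6
  have hcover : (Set.univ : Set (Fin n → (Fin d → ℝ) × ℝ)) ⊆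
      ((fun ω i => obs d a (ω i)) ⁻¹' (AA d n (a n * (Real.log n / d) ^ d / 8))) ∪
        (B1 ∪ B2 ∪ B3) := by
    intro ω _
    by_cases hω : ω ∈ B1 ∪ B2 ∪ B3
    · exact Or.inr hω
    · left
      have hω1 : ω ∉ B1 := fun h => hω (Or.inl (Or.inl h))
      have hω2 : ω ∉ B2 := fun h => hω (Or.inl (Or.inr h))
      have hω3 : ω ∉ B3 := fun h => hω (Or.inr h)
      have hω1' : ∀ i j, i ≠ j → ((n : ℝ) ^ 5)⁻¹ ≤ |(ω i).2 - (ω j).2| := by
        intro i j hij
        by_contra h
        exact hω1 ⟨i, j, hij, not_le.1 h⟩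
      have hω2' : n * m / 2 < ∑ i, xi (a n) b (ω i) := not_le.1 hω2
      have hω3' : ∀ i, (∀ r, 0 < (ω i).1 r) ∧ 0 < (ω i).2 := by
        by_contra h
        exact hω3 h
      refine ⟨?_, ?_⟩
      · intro i r
        exact mul_pos ((hω3' i).1 r) (Real.exp_pos _)
      · apply Set.mem_iUnion.2
        refine ⟨Finset.univ.filter fun i => (ω i).2 ≤ a n ∧ ∀ r, b ≤ (ω i).1 r, ?_, ?_⟩
        · intro i hi j hj hij
          rw [Finset.mem_filter] at hi hj
          rcases le_total (ω i).2 (ω j).2 with h | h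
          · refine pair_sep hd ha (by omega) hb0 hbd hi.2.2 hj.2.2 (hω3' i).2 h hj.2.1 ?_
            have := hω1' j i (Ne.symm hij)
            rwa [abs_of_nonneg (by linarith)] at this
          · have h1 : (n : ℝ) ≤ ∏ r, max (obs d a (ω j) r) (obs d a (ω i) r) := by
              refine pair_sep hd ha (by omega) hb0 hbd hj.2.2 hi.2.2 (hω3' j).2 h hi.2.1 ?_
              have := hω1' i j hij
              rwa [abs_of_nonneg (by linarith)] at this
            refine h1.trans (le_of_eq ?_)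
            exact Finset.prod_congr rfl fun r _ => max_comm _ _
        · show a n * (Real.log n / d) ^ d / 8 < ∑ i ∈ Finset.univ.filter
            (fun i => (ω i).2 ≤ a n ∧ ∀ r, b ≤ (ω i).1 r), (4 * n * ∏ r, obs d a (ω i) r)⁻¹
          have h1 : ∑ i ∈ Finset.univ.filter
              (fun i => (ω i).2 ≤ a n ∧ ∀ r, b ≤ (ω i).1 r), (4 * n * ∏ r, obs d a (ω i) r)⁻¹ =
              (4 * (n : ℝ))⁻¹ * ∑ i, xi (a n) b (ω i) := by
            rw [Finset.sum_filter, Finset.mul_sum]
            apply Finset.sum_congr rfl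
            intro i _
            by_cases hi : (ω i).2 ≤ a n ∧ ∀ r, b ≤ (ω i).1 r
            · rw [if_pos hi, prod_obs hd, mul_inv]
              congr 1
              unfold xi hh gg
              rw [Set.indicator_of_mem (show (ω i).2 ∈ Set.Iic (a n) from hi.1), mul_one,
                ← Finset.prod_inv_distrib]
              apply Finset.prod_congr rfl
              intro r _
              rw [Set.indicator_of_mem (show (ω i).1 r ∈ Set.Ici b from hi.2 r)]
            · rw [if_neg hi]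
              symm
              apply mul_eq_zero_of_right
              unfold xi
              by_cases h2 : (ω i).2 ≤ a n
              · have h3 : ¬ ∀ r, b ≤ (ω i).1 r := fun h => hi ⟨h2, h⟩
                push Not at h3
                obtain ⟨r, hr⟩ := h3
                have h4 : gg b ((ω i).1 r) = 0 := Set.indicator_of_notMem
                  (show (ω i).1 r ∉ Set.Ici b from not_le.2 hr) _
                rw [Finset.prod_eq_zero (Finset.mem_univ r) h4, zero_mul]
              · have h4 : hh (a n) (ω i).2 = 0 := Set.indicator_of_notMem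
                  (show (ω i).2 ∉ Set.Iic (a n) from h2) _
                rw [h4, mul_zero]
          rw [h1]
          calc a n * (Real.log n / d) ^ d / 8 = (4 * (n : ℝ))⁻¹ * (n * m / 2) := by
                rw [hm]; field_simp; ring
            _ < _ := by gcongr
  have hmeas : Measurable fun (ω : Fin n → (Fin d → ℝ) × ℝ) i => obs d a (ω i) :=
    measurable_pi_lambda _ fun i => (measurable_obs d a).comp (measurable_pi_apply i)
  rw [pi_law, Measure.map_apply hmeas (measurableSet_AA d n _)]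
  rw [tsub_le_iff_right]
  calc (1 : ℝ≥0∞) = Q Set.univ := by rw [measure_univ]
    _ ≤ Q (((fun ω i => obs d a (ω i)) ⁻¹' (AA d n (a n * (Real.log n / d) ^ d / 8))) ∪
        (B1 ∪ B2 ∪ B3)) := measure_mono hcover
    _ ≤ Q ((fun ω i => obs d a (ω i)) ⁻¹' (AA d n (a n * (Real.log n / d) ^ d / 8))) +
        (Q B1 + Q B2 + Q B3) := by
        refine (measure_union_le _ _).trans ?_
        gcongr
        refine (measure_union_le _ _).trans ?_
        gcongr
        exact measure_union_le _ _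
    _ ≤ _ := by
        rw [hQ3, add_zero, ENNReal.ofReal_add (by positivity) (by positivity)]
        gcongr

end Pool.Agent.Helper26.SMU
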