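import Mathlib

/-!
# Multivariate scale mixtures of uniforms: definitions

Definitions for the problem `MP_a4ac49_pr`.
-/

open MeasureTheory ProbabilityTheory Filter Topology
open scoped ENNReal

namespace Pool.Agent.Helper26.SMU

/-- The open positive orthant `(0,∞)^d`. -/
def orthant (d : ℕ) : Set (Fin d → ℝ) := {y | ∀ i, 0 < y i}

/-- `G` is a Borel probability distribution on `(0,∞)^d`, seen as a measure on `ℝ^d` which is
carried by the orthant. -/
structure IsMixing {d : ℕ} (G : Measure (Fin d → ℝ)) : Prop where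
  prob : IsProbabilityMeasure G
  supp : G (orthant d)ᶜ = 0

/-- The scale mixture density `f_G(x) = ∫_{y ≥ x} dG(y) / (y_1 ⋯ y_d)`. -/
noncomputable def dens {d : ℕ} (G : Measure (Fin d → ℝ)) (x : Fin d → ℝ) : ℝ≥0∞ :=
  ∫⁻ y in {y | x ≤ y}, ENNReal.ofReal (∏ i, y i)⁻¹ ∂G

/-- The value at the origin `f_G(0) = ∫ dG(y) / (y_1 ⋯ y_d)`, in `(0,∞]`. -/
noncomputable def atOrigin {d : ℕ} (G : Measure (Fin d → ℝ)) : ℝ≥0∞ :=
  ∫⁻ y, ENNReal.ofReal (∏ i, y i)⁻¹ ∂G

/-- The law on `ℝ^d` with Lebesgue density `f_G` on the orthant (and `0` outside). -/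
noncomputable def law {d : ℕ} (G : Measure (Fin d → ℝ)) : Measure (Fin d → ℝ) :=
  (volume.restrict (orthant d)).withDensity (dens G)

/-- The log-likelihood `∑ i, log f_G(x_i)` of the sample `x`, with values in `[-∞,∞]`. -/
noncomputable def loglik {d n : ℕ} (x : Fin n → Fin d → ℝ) (G : Measure (Fin d → ℝ)) : EReal :=
  ∑ i, ENNReal.log (dens G (x i))

/-- `G` is (the mixing distribution of) a maximum likelihood estimator for the sample `x`. -/
structure IsMLE {d n : ℕ} (x : Fin n → Fin d → ℝ) (G : Measure (Fin d → ℝ)) : Prop where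
  mixing : IsMixing G
  optimal : ∀ G', IsMixing G' → loglik x G' ≤ loglik x G

theorem measurableSet_orthant (d : ℕ) : MeasurableSet (orthant d) := by
  have : orthant d = ⋂ i, {y : Fin d → ℝ | 0 < y i} := by ext; simp [orthant]
  rw [this]
  exact MeasurableSet.iInter fun i => measurableSet_lt measurable_const (measurable_pi_apply i)

theorem prod_pos_of_mem {d : ℕ} {y : Fin d → ℝ} (hy : y ∈ orthant d) : 0 < ∏ i, y i :=
  Finset.prod_pos fun i _ => hy i

theorem mem_orthant_of_le {d : ℕ} {x y : Fin d → ℝ} (hx : x ∈ orthant d) (hxy : x ≤ y) :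
    y ∈ orthant d := fun i => (hx i).trans_le (hxy i)

theorem prod_mono_of_mem {d : ℕ} {x y : Fin d → ℝ} (hx : x ∈ orthant d) (hxy : x ≤ y) :
    ∏ i, x i ≤ ∏ i, y i :=
  Finset.prod_le_prod (fun i _ => (hx i).le) fun i _ => hxy i

theorem measurable_weight (d : ℕ) :
    Measurable fun y : Fin d → ℝ => ENNReal.ofReal (∏ i, y i)⁻¹ := by
  apply Measurable.ennreal_ofReal
  apply Measurable.inv
  exact Finset.measurable_prod _ fun i _ => measurable_pi_apply i

theorem measurableSet_ge {d : ℕ} (x : Fin d → ℝ) : MeasurableSet {y : Fin d → ℝ | x ≤ y} :=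
  measurableSet_Ici

theorem dens_eq_indicator {d : ℕ} (G : Measure (Fin d → ℝ)) (x : Fin d → ℝ) :
    dens G x = ∫⁻ y, {y | x ≤ y}.indicator (fun y => ENNReal.ofReal (∏ i, y i)⁻¹) y ∂G := by
  rw [dens, lintegral_indicator (measurableSet_ge x)]

/-- `f_G(x) ≤ 1 / (x_1 ⋯ x_d)`. -/
theorem dens_le {d : ℕ} {G : Measure (Fin d → ℝ)} (hG : IsMixing G) {x : Fin d → ℝ}
    (hx : x ∈ orthant d) : dens G x ≤ ENNReal.ofReal (∏ i, x i)⁻¹ := by
  have := hG.prob
  calc dens G x ≤ ∫⁻ y in {y | x ≤ y}, ENNReal.ofReal (∏ i, x i)⁻¹ ∂G := by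
        apply setLIntegral_mono' (measurableSet_ge x)
        intro y hy
        apply ENNReal.ofReal_le_ofReal
        exact inv_anti₀ (prod_pos_of_mem hx) (prod_mono_of_mem hx hy)
    _ = ENNReal.ofReal (∏ i, x i)⁻¹ * G {y | x ≤ y} := by
        rw [lintegral_const, Measure.restrict_apply MeasurableSet.univ, Set.univ_inter]
    _ ≤ ENNReal.ofReal (∏ i, x i)⁻¹ * 1 := by gcongr; exact prob_le_one
    _ = _ := mul_one _

theorem dens_ne_top {d : ℕ} {G : Measure (Fin d → ℝ)} (hG : IsMixing G) {x : Fin d → ℝ}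
    (hx : x ∈ orthant d) : dens G x ≠ ⊤ :=
  ne_top_of_le_ne_top ENNReal.ofReal_ne_top (dens_le hG hx)

theorem dens_dirac {d : ℕ} {x z : Fin d → ℝ} (hxz : x ≤ z) :
    dens (Measure.dirac z) x = ENNReal.ofReal (∏ i, z i)⁻¹ := by
  rw [dens_eq_indicator, lintegral_dirac' _ ((measurable_weight d).indicator (measurableSet_ge x))]
  exact Set.indicator_of_mem (show z ∈ {y | x ≤ y} from hxz) _

theorem isMixing_dirac {d : ℕ} {z : Fin d → ℝ} (hz : z ∈ orthant d) :
    IsMixing (Measure.dirac z) := by
  refine ⟨inferInstance, ?_⟩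
  rw [Measure.dirac_apply' _ (measurableSet_orthant d).compl]
  simp [hz]

theorem log_prod {ι : Type*} (s : Finset ι) (f : ι → ℝ≥0∞) :
    ENNReal.log (∏ i ∈ s, f i) = ∑ i ∈ s, ENNReal.log (f i) := by
  classical
  induction s using Finset.induction_on with
  | empty => simp
  | insert a s ha ih =>
    rw [Finset.prod_insert ha, Finset.sum_insert ha, ENNReal.log_mul_add, ih]

theorem loglik_le_iff {d n : ℕ} (x : Fin n → Fin d → ℝ) (G G' : Measure (Fin d → ℝ)) :
    loglik x G' ≤ loglik x G ↔ ∏ i, dens G' (x i) ≤ ∏ i, dens G (x i) := by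
  rw [loglik, loglik, ← log_prod, ← log_prod]
  exact ENNReal.log_strictMono.le_iff_le

theorem isMLE_iff {d n : ℕ} (x : Fin n → Fin d → ℝ) (G : Measure (Fin d → ℝ)) :
    IsMLE x G ↔ IsMixing G ∧
      ∀ G', IsMixing G' → ∏ i, dens G' (x i) ≤ ∏ i, dens G (x i) := by
  constructor
  · intro h
    exact ⟨h.mixing, fun G' hG' => (loglik_le_iff x G G').1 (h.optimal G' hG')⟩
  · intro h
    exact ⟨h.1, fun G' hG' => (loglik_le_iff x G G').2 (h.2 G' hG')⟩

/-- `f_G(0)` is the limit of `f_G(x)` as `x ↓ 0`. -/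
theorem tendsto_dens {d : ℕ} {G : Measure (Fin d → ℝ)} (hG : IsMixing G) :
    Tendsto (dens G) (𝓝[orthant d] 0) (𝓝 (atOrigin G)) := by
  have hle : ∀ x, dens G x ≤ atOrigin G := fun x => setLIntegral_le_lintegral _ _
  apply tendsto_order.2
  constructor
  · intro c hc
    -- monotone convergence along `1/(m+1)`
    have h1 : Tendsto (fun m : ℕ => dens G (fun _ => 1 / ((m : ℝ) + 1))) atTop
        (𝓝 (atOrigin G)) := by
      have h2 : atOrigin G = ∫⁻ y, ⨆ m : ℕ, {y | (fun _ => 1 / ((m : ℝ) + 1)) ≤ y}.indicator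
          (fun y => ENNReal.ofReal (∏ i, y i)⁻¹) y ∂G := by
        apply lintegral_congr_ae
        have hae : ∀ᵐ y ∂G, y ∈ orthant d := by
          rw [ae_iff]; exact hG.supp
        filter_upwards [hae] with y hy
        apply le_antisymm
        · obtain ⟨m, hm⟩ : ∃ m : ℕ, ∀ i, 1 / ((m : ℝ) + 1) ≤ y i := by
            choose m hm using fun i => exists_nat_one_div_lt (hy i)
            refine ⟨∑ i, m i, fun i => ?_⟩
            refine le_trans ?_ (hm i).le
            apply one_div_le_one_div_of_le (by positivity)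
            have : m i ≤ ∑ i, m i := Finset.single_le_sum (fun _ _ => Nat.zero_le _)
              (Finset.mem_univ i)
            have : (m i : ℝ) ≤ ((∑ i, m i : ℕ) : ℝ) := by exact_mod_cast this
            linarith
          refine le_trans ?_ (le_iSup _ m)
          rw [Set.indicator_of_mem]
          exact hm
        · apply iSup_le
          intro m
          exact Set.indicator_le_self' (fun _ _ => zero_le) y
      rw [h2, lintegral_iSup]
      · have h3 : (fun m : ℕ => dens G (fun _ => 1 / ((m : ℝ) + 1))) = fun m : ℕ =>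
            ∫⁻ y, {y | (fun _ => 1 / ((m : ℝ) + 1)) ≤ y}.indicator
          (fun y => ENNReal.ofReal (∏ i, y i)⁻¹) y ∂G := by
          funext m
          rw [dens_eq_indicator]
        rw [h3]
        apply tendsto_atTop_iSup
        intro m m' hmm'
        apply lintegral_mono
        intro y
        apply Set.indicator_le_indicator_of_subset _ (fun _ => zero_le)
        intro z hz i
        refine le_trans ?_ (hz i)
        apply one_div_le_one_div_of_le (by positivity)
        have : (m : ℝ) ≤ m' := by exact_mod_cast hmm'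
        linarith
      · intro m
        exact (measurable_weight d).indicator (measurableSet_ge _)
      · intro m m' hmm' y
        apply Set.indicator_le_indicator_of_subset _ (fun _ => zero_le)
        intro z hz i
        refine le_trans ?_ (hz i)
        apply one_div_le_one_div_of_le (by positivity)
        have : (m : ℝ) ≤ m' := by exact_mod_cast hmm'
        linarith
    obtain ⟨m, hm⟩ := ((tendsto_order.1 h1).1 c hc).exists
    have hnb : ∀ᶠ x : Fin d → ℝ in 𝓝[orthant d] 0, ∀ i, x i < 1 / ((m : ℝ) + 1) := by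
      refine nhdsWithin_le_nhds (eventually_all.2 fun i => ?_)
      have hc : Tendsto (fun x : Fin d → ℝ => x i) (𝓝 0) (𝓝 0) := by
        have := (continuous_apply i : Continuous fun x : Fin d → ℝ => x i).tendsto 0
        simpa using this
      exact (tendsto_order.1 hc).2 _ (by positivity)
    filter_upwards [hnb] with x hx
    refine lt_of_lt_of_le hm ?_
    apply lintegral_mono_set
    intro y hy i
    exact (hx i).le.trans (hy i)
  · intro c hc
    exact Eventually.of_forall fun x => (hle x).trans_lt hc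

end Pool.Agent.Helper26.SMU
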