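import Pool.Agent.Helper26.SMU.Defs

/-!
# The scale mixture density is the density of `(U_1 Y_1, …, U_d Y_d)`
-/

open MeasureTheory ProbabilityTheory Filter Topology
open scoped ENNReal

namespace Pool.Agent.Helper26.SMU

variable {d n : ℕ}

/-- uniform law on `(0,1]` -/
noncomputable def unif : Measure ℝ := volume.restrict (Set.Ioc 0 1)

instance : IsProbabilityMeasure unif := ⟨by simp [unif]⟩

/-- uniform law on `(0,1]^d` -/
noncomputable def unifPi (d : ℕ) : Measure (Fin d → ℝ) := Measure.pi fun _ => unif

instance : IsProbabilityMeasure (unifPi d) := by unfold unifPi; infer_instance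

/-- the multiplication map -/
def mulMap (d : ℕ) (p : (Fin d → ℝ) × (Fin d → ℝ)) : Fin d → ℝ := fun r => p.1 r * p.2 r

theorem measurable_mulMap (d : ℕ) : Measurable (mulMap d) := by
  apply measurable_pi_lambda
  intro r
  exact ((measurable_pi_apply r).comp measurable_fst).mul
    ((measurable_pi_apply r).comp measurable_snd)

theorem unifPi_eq (d : ℕ) : unifPi d = volume.restrict (Set.univ.pi fun _ => Set.Ioc 0 1) := by
  rw [unifPi, volume_pi, Measure.restrict_pi_pi]
  rfl

/-- scaling: the volume of `{u ∈ (0,1]^d : u y ∈ S}` is `|y|⁻¹` times that of `S ∩ (0,y]`. -/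
theorem unifPi_preimage {y : Fin d → ℝ} (hy : y ∈ orthant d) {S : Set (Fin d → ℝ)}
    (hS : MeasurableSet S) :
    unifPi d {u | (fun r => u r * y r) ∈ S} =
      ENNReal.ofReal (∏ r, y r)⁻¹ * volume (S ∩ (orthant d ∩ {x | x ≤ y})) := by
  have hdet : Matrix.det (Matrix.diagonal y) ≠ 0 := by
    rw [Matrix.det_diagonal]
    exact (prod_pos_of_mem hy).ne'
  have hpos := prod_pos_of_mem hy
  have hscale := Real.smul_map_diagonal_volume_pi hdet
  rw [Matrix.det_diagonal, abs_of_pos hpos] at hscale
  have hmapeq : (⇑(Matrix.toLin' (Matrix.diagonal y))) = fun u : Fin d → ℝ => fun r => u r * y r := by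
    funext u r
    rw [Matrix.toLin'_apply, Matrix.mulVec_diagonal, mul_comm]
  rw [hmapeq] at hscale
  have hmeas : Measurable fun u : Fin d → ℝ => fun r => u r * y r := by
    apply measurable_pi_lambda
    intro r
    exact (measurable_pi_apply r).mul measurable_const
  have hT : MeasurableSet (S ∩ (orthant d ∩ {x | x ≤ y})) :=
    hS.inter ((measurableSet_orthant d).inter measurableSet_Iic)
  have h1 : volume (S ∩ (orthant d ∩ {x | x ≤ y})) = ENNReal.ofReal (∏ r, y r) *
      volume ((fun u : Fin d → ℝ => fun r => u r * y r) ⁻¹' (S ∩ (orthant d ∩ {x | x ≤ y}))) := by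
    conv_lhs => rw [← hscale]
    rw [Measure.smul_apply, Measure.map_apply hmeas hT, smul_eq_mul]
  rw [h1, ← mul_assoc, ← ENNReal.ofReal_mul (by positivity), inv_mul_cancel₀ hpos.ne',
    ENNReal.ofReal_one, one_mul, unifPi_eq]
  have h2 : MeasurableSet {u : Fin d → ℝ | (fun r => u r * y r) ∈ S} := hmeas hS
  rw [Measure.restrict_apply h2]
  congr 1
  ext u
  simp only [Set.mem_inter_iff, Set.mem_preimage, Set.mem_pi, Set.mem_univ, true_implies,
    Set.mem_Ioc, orthant]
  constructor
  · rintro ⟨h, hu⟩
    refine ⟨h, fun r => mul_pos (hu r).1 (hy r), fun r => ?_⟩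
    have := (hu r).2
    have := (hy r).le
    nlinarith
  · rintro ⟨h, hu, hu'⟩
    refine ⟨h, fun r => ⟨?_, ?_⟩⟩
    · have h1 : 0 < u r * y r := hu r
      have h2 := hy r
      by_contra hcon
      push Not at hcon
      nlinarith
    · have h1 : u r * y r ≤ y r := hu' r
      have h2 := hy r
      by_contra hcon
      push Not at hcon
      nlinarith

/-- `f_G` is the density of `(U_1 Y_1, …, U_d Y_d)`. -/
theorem law_eq_map {G : Measure (Fin d → ℝ)} (hG : IsMixing G) :
    law G = ((unifPi d).prod G).map (mulMap d) := by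
  have := hG.prob
  have hae : ∀ᵐ y ∂G, y ∈ orthant d := by
    rw [ae_iff]; exact hG.supp
  have hle : MeasurableSet {p : (Fin d → ℝ) × (Fin d → ℝ) | p.1 ≤ p.2} :=
    measurableSet_le measurable_fst measurable_snd
  ext S hS
  rw [law, withDensity_apply _ hS, Measure.restrict_restrict hS,
    Measure.map_apply (measurable_mulMap d) hS,
    Measure.prod_apply_symm ((measurable_mulMap d) hS),
    ← lintegral_indicator (hS.inter (measurableSet_orthant d))]
  calc (∫⁻ x, (S ∩ orthant d).indicator (dens G) x)
      = ∫⁻ x, (∫⁻ y, ({p : (Fin d → ℝ) × (Fin d → ℝ) | p.1 ≤ p.2} ∩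
          Prod.fst ⁻¹' (S ∩ orthant d)).indicator
          (fun p => ENNReal.ofReal (∏ r, p.2 r)⁻¹) (x, y) ∂G) := by
        apply lintegral_congr
        intro x
        by_cases hx : x ∈ S ∩ orthant d
        · rw [Set.indicator_of_mem hx, dens_eq_indicator]
          apply lintegral_congr
          intro y
          by_cases hxy : x ≤ y
          · rw [Set.indicator_of_mem (show y ∈ {y | x ≤ y} from hxy), Set.indicator_of_mem]
            exact ⟨hxy, hx⟩
          · rw [Set.indicator_of_notMem (show y ∉ {y | x ≤ y} from hxy), Set.indicator_of_notMem]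
            exact fun h => hxy h.1
        · rw [Set.indicator_of_notMem hx]
          symm
          rw [← lintegral_zero (μ := G)]
          apply lintegral_congr
          intro y
          exact Set.indicator_of_notMem (fun h => hx h.2) _
    _ = ∫⁻ y, (∫⁻ x, ({p : (Fin d → ℝ) × (Fin d → ℝ) | p.1 ≤ p.2} ∩
          Prod.fst ⁻¹' (S ∩ orthant d)).indicator
          (fun p => ENNReal.ofReal (∏ r, p.2 r)⁻¹) (x, y)) ∂G := by
        rw [lintegral_lintegral_swap]
        apply Measurable.aemeasurable
        exact ((measurable_weight d).comp measurable_snd).indicator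
          (hle.inter (measurable_fst (hS.inter (measurableSet_orthant d))))
    _ = ∫⁻ y, unifPi d ((fun u => (u, y)) ⁻¹' (mulMap d ⁻¹' S)) ∂G := by
        apply lintegral_congr_ae
        filter_upwards [hae] with y hy
        have h1 : unifPi d ((fun u => (u, y)) ⁻¹' (mulMap d ⁻¹' S)) = _ :=
          unifPi_preimage (S := S) hy hS
        have h2 : MeasurableSet (S ∩ (orthant d ∩ {x | x ≤ y})) :=
          hS.inter ((measurableSet_orthant d).inter measurableSet_Iic)
        rw [h1, ← setLIntegral_const, ← lintegral_indicator h2]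
        apply lintegral_congr
        intro x
        by_cases hx : x ∈ S ∩ (orthant d ∩ {x | x ≤ y})
        · rw [Set.indicator_of_mem hx, Set.indicator_of_mem]
          exact ⟨hx.2.2, hx.1, hx.2.1⟩
        · rw [Set.indicator_of_notMem hx, Set.indicator_of_notMem]
          exact fun h => hx ⟨h.2.1, h.2.2, h.1⟩

theorem isProbabilityMeasure_law {G : Measure (Fin d → ℝ)} (hG : IsMixing G) :
    IsProbabilityMeasure (law G) := by
  have := hG.prob
  rw [law_eq_map hG]
  exact Measure.isProbabilityMeasure_map (measurable_mulMap d).aemeasurable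

end Pool.Agent.Helper26.SMU
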