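import Pool.Agent.Helper26.SMU.Defs

/-!
# Properties of the MLE over scale mixtures of uniforms
-/

open MeasureTheory ProbabilityTheory Filter Topology
open scoped ENNReal

namespace Pool.Agent.Helper26.SMU

variable {d n : ℕ}

/-- mixture of `G` and a point mass -/
noncomputable def mix (G : Measure (Fin d → ℝ)) (z : Fin d → ℝ) (ε : ℝ≥0∞) :
    Measure (Fin d → ℝ) := (1 - ε) • G + ε • Measure.dirac z

theorem isMixing_mix {G : Measure (Fin d → ℝ)} (hG : IsMixing G) {z : Fin d → ℝ}
    (hz : z ∈ orthant d) {ε : ℝ≥0∞} (hε : ε ≤ 1) : IsMixing (mix G z ε) := by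
  have := hG.prob
  refine ⟨⟨?_⟩, ?_⟩
  · simp [mix, tsub_add_cancel_of_le hε]
  · simp only [mix, Measure.coe_add, Measure.coe_smul, Pi.add_apply, Pi.smul_apply, smul_eq_mul,
      hG.supp, mul_zero, zero_add, mul_eq_zero]
    right
    exact (isMixing_dirac hz).supp

theorem dens_mix (G : Measure (Fin d → ℝ)) (z : Fin d → ℝ) (ε : ℝ≥0∞) (x : Fin d → ℝ) :
    dens (mix G z ε) x = (1 - ε) * dens G x + ε * dens (Measure.dirac z) x := by
  rw [dens_eq_indicator, dens_eq_indicator, dens_eq_indicator, mix, lintegral_add_measure,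
    lintegral_smul_measure, lintegral_smul_measure, smul_eq_mul, smul_eq_mul]

/-- join of a finite family of points -/
noncomputable def joinOf (x : Fin n → Fin d → ℝ) (s : Finset (Fin n)) (hs : s.Nonempty) :
    Fin d → ℝ := fun r => s.sup' hs fun i => x i r

theorem le_joinOf (x : Fin n → Fin d → ℝ) {s : Finset (Fin n)} (hs : s.Nonempty) {i : Fin n}
    (hi : i ∈ s) : x i ≤ joinOf x s hs := fun r =>
  Finset.le_sup' (fun i => x i r) hi

theorem joinOf_le (x : Fin n → Fin d → ℝ) {s : Finset (Fin n)} (hs : s.Nonempty)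
    {y : Fin d → ℝ} (hy : ∀ i ∈ s, x i ≤ y) : joinOf x s hs ≤ y := fun r =>
  Finset.sup'_le hs _ fun i hi => hy i hi r

theorem joinOf_mem {x : Fin n → Fin d → ℝ} (hx : ∀ i, x i ∈ orthant d) {s : Finset (Fin n)}
    (hs : s.Nonempty) : joinOf x s hs ∈ orthant d := by
  obtain ⟨i, hi⟩ := hs
  exact mem_orthant_of_le (hx i) (le_joinOf x ⟨i, hi⟩ hi)

theorem IsMLE.prod_pos [NeZero n] {x : Fin n → Fin d → ℝ} {G : Measure (Fin d → ℝ)}
    (h : IsMLE x G) (hx : ∀ i, x i ∈ orthant d) : 0 < ∏ i, dens G (x i) := by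
  have hu : (Finset.univ : Finset (Fin n)).Nonempty := ⟨0, Finset.mem_univ _⟩
  set z := joinOf x Finset.univ hu with hz
  have h1 := ((isMLE_iff x G).1 h).2 (Measure.dirac z) (isMixing_dirac (joinOf_mem hx hu))
  refine lt_of_lt_of_le ?_ h1
  rw [pos_iff_ne_zero, Finset.prod_ne_zero_iff]
  intro i _
  rw [dens_dirac (le_joinOf x hu (Finset.mem_univ i))]
  have : 0 < ∏ r, z r := prod_pos_of_mem (joinOf_mem hx hu)
  simpa using this

/-- `f̂(x_k) ≥ 1/(4n|x_k|)` for the MLE. -/
theorem IsMLE.dens_ge [NeZero n] {x : Fin n → Fin d → ℝ} {G : Measure (Fin d → ℝ)}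
    (h : IsMLE x G) (hx : ∀ i, x i ∈ orthant d) (k : Fin n) :
    ENNReal.ofReal (4 * n * ∏ r, x k r)⁻¹ ≤ dens G (x k) := by
  classical
  have hG := h.mixing
  have hn : (1 : ℝ) ≤ n := by
    have : 1 ≤ n := Nat.one_le_iff_ne_zero.2 (NeZero.ne n)
    exact_mod_cast this
  set e : ℝ := 1 / (2 * n) with he
  have he0 : 0 < e := by positivity
  have he1 : e ≤ 1 / 2 := by
    rw [he]
    apply one_div_le_one_div_of_le (by norm_num)
    linarith
  set ε : ℝ≥0∞ := ENNReal.ofReal e with hε
  have hε1 : ε ≤ 1 := by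
    rw [hε, ENNReal.ofReal_le_one]; linarith
  have hmax := ((isMLE_iff x G).1 h).2 (mix G (x k) ε) (isMixing_mix hG (hx k) hε1)
  have hpos := h.prod_pos hx
  rw [← Finset.mul_prod_erase Finset.univ (fun i => dens G (x i)) (Finset.mem_univ k)] at hpos hmax
  rw [← Finset.mul_prod_erase Finset.univ (fun i => dens (mix G (x k) ε) (x i))
    (Finset.mem_univ k)] at hmax
  set P := ∏ i ∈ Finset.univ.erase k, dens G (x i) with hP
  have hP0 : P ≠ 0 := by
    intro h0
    rw [h0, mul_zero] at hpos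
    exact lt_irrefl _ hpos
  have hPtop : P ≠ ⊤ := ENNReal.prod_ne_top fun i _ => dens_ne_top hG (hx i)
  have h1e : (1 - ε) = ENNReal.ofReal (1 - e) := by
    rw [ENNReal.ofReal_sub _ he0.le, ENNReal.ofReal_one]
  have hlow : (1 - ε) ^ (n - 1) * P ≤
      ∏ i ∈ Finset.univ.erase k, dens (mix G (x k) ε) (x i) := by
    have hc : (Finset.univ.erase k).card = n - 1 := by
      rw [Finset.card_erase_of_mem (Finset.mem_univ k), Finset.card_univ, Fintype.card_fin]
    rw [← hc, ← Finset.prod_const, hP, ← Finset.prod_mul_distrib]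
    apply Finset.prod_le_prod' 
    intro i _
    rw [dens_mix]
    exact le_self_add
  have hhalf : ENNReal.ofReal (1 / 2) ≤ (1 - ε) ^ (n - 1) := by
    rw [h1e, ← ENNReal.ofReal_pow (by linarith)]
    apply ENNReal.ofReal_le_ofReal
    have hb := one_add_mul_le_pow (a := -e) (by linarith) (n - 1)
    have h2 : ((n - 1 : ℕ) : ℝ) * e ≤ 1 / 2 := by
      have : ((n - 1 : ℕ) : ℝ) ≤ n := by exact_mod_cast Nat.sub_le n 1
      calc ((n - 1 : ℕ) : ℝ) * e ≤ n * e := by gcongr
        _ = 1 / 2 := by rw [he]; field_simp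
    calc (1 / 2 : ℝ) ≤ 1 + ((n - 1 : ℕ) : ℝ) * (-e) := by linarith
      _ ≤ (1 + -e) ^ (n - 1) := hb
      _ = (1 - e) ^ (n - 1) := by ring
  have hk : ε * ENNReal.ofReal (∏ r, x k r)⁻¹ ≤ dens (mix G (x k) ε) (x k) := by
    rw [dens_mix, dens_dirac le_rfl]
    exact le_add_self
  have hchain : (ε * ENNReal.ofReal (∏ r, x k r)⁻¹ * ENNReal.ofReal (1 / 2)) * P ≤
      dens G (x k) * P := by
    calc (ε * ENNReal.ofReal (∏ r, x k r)⁻¹ * ENNReal.ofReal (1 / 2)) * P
        = (ε * ENNReal.ofReal (∏ r, x k r)⁻¹) * (ENNReal.ofReal (1 / 2) * P) := by ring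
      _ ≤ dens (mix G (x k) ε) (x k) * ((1 - ε) ^ (n - 1) * P) := by gcongr
      _ ≤ dens (mix G (x k) ε) (x k) *
          ∏ i ∈ Finset.univ.erase k, dens (mix G (x k) ε) (x i) := by gcongr
      _ ≤ _ := hmax
  have hfin := (ENNReal.mul_le_mul_iff_left hP0 hPtop).1 hchain
  refine le_trans (le_of_eq ?_) hfin
  have hx0 := prod_pos_of_mem (hx k)
  rw [hε, ← ENNReal.ofReal_mul he0.le, ← ENNReal.ofReal_mul (by positivity)]
  congr 1
  rw [he]
  field_simp
  norm_num

/-- Domination: if the joins of the pairs of distinct points indexed by `I` have volume at least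
`n`, then `∑_{i ∈ I} f_G(x_i) ≤ f_G(0) + 1`. -/
theorem sum_dens_le {x : Fin n → Fin d → ℝ} {G : Measure (Fin d → ℝ)} (hG : IsMixing G)
    (I : Finset (Fin n))
    (hI : ∀ i ∈ I, ∀ j ∈ I, i ≠ j → (n : ℝ) ≤ ∏ r, max (x i r) (x j r))
    (hx : ∀ i, x i ∈ orthant d) :
    ∑ i ∈ I, dens G (x i) ≤ atOrigin G + 1 := by
  classical
  have := hG.prob
  have hae : ∀ᵐ y ∂G, y ∈ orthant d := by
    rw [ae_iff]; exact hG.supp
  calc ∑ i ∈ I, dens G (x i)
      = ∫⁻ y, ∑ i ∈ I, {y | x i ≤ y}.indicator (fun y => ENNReal.ofReal (∏ i, y i)⁻¹) y ∂G := by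
        rw [lintegral_finsetSum]
        · exact Finset.sum_congr rfl fun i _ => dens_eq_indicator G (x i)
        · intro i _
          exact (measurable_weight d).indicator (measurableSet_ge _)
    _ ≤ ∫⁻ y, (ENNReal.ofReal (∏ i, y i)⁻¹ + 1) ∂G := by
        apply lintegral_mono_ae
        filter_upwards [hae] with y hy
        have h1 : ∑ i ∈ I, {y | x i ≤ y}.indicator
            (fun y => ENNReal.ofReal (∏ i, y i)⁻¹) y =
            (I.filter fun i => x i ≤ y).card * ENNReal.ofReal (∏ i, y i)⁻¹ := by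
          rw [← nsmul_eq_mul, ← Finset.sum_const, Finset.sum_filter]
          apply Finset.sum_congr rfl
          intro i _
          by_cases h : x i ≤ y
          · simp [h, Set.indicator]
          · simp [h, Set.indicator]
        rw [h1]
        by_cases hcard : (I.filter fun i => x i ≤ y).card ≤ 1
        · calc ((I.filter fun i => x i ≤ y).card : ℝ≥0∞) * ENNReal.ofReal (∏ i, y i)⁻¹
              ≤ 1 * ENNReal.ofReal (∏ i, y i)⁻¹ := by
                gcongr
                exact_mod_cast hcard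
            _ ≤ _ := by rw [one_mul]; exact le_self_add
        · push Not at hcard
          obtain ⟨i, hi, j, hj, hij⟩ := Finset.one_lt_card.1 hcard
          rw [Finset.mem_filter] at hi hj
          have hm := hI i hi.1 j hj.1 hij
          have hmy : ∏ r, max (x i r) (x j r) ≤ ∏ r, y r := by
            apply Finset.prod_le_prod
            · intro r _
              exact ((hx i r).le).trans (le_max_left _ _)
            · intro r _
              exact max_le (hi.2 r) (hj.2 r)
          have hn0 : 0 < n := by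
            rcases Nat.eq_zero_or_pos n with h0 | h0
            · subst h0; exact i.elim0
            · exact h0
          have hn0' : (0 : ℝ) < n := by exact_mod_cast hn0
          calc ((I.filter fun i => x i ≤ y).card : ℝ≥0∞) * ENNReal.ofReal (∏ i, y i)⁻¹
              ≤ (n : ℝ≥0∞) * ENNReal.ofReal (n : ℝ)⁻¹ := by
                gcongr
                · calc (I.filter fun i => x i ≤ y).card ≤ (Finset.univ : Finset (Fin n)).card :=
                      Finset.card_le_card (Finset.subset_univ _)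
                    _ = n := by simp
                · exact hm.trans hmy
            _ = 1 := by
                rw [← ENNReal.ofReal_natCast, ← ENNReal.ofReal_mul hn0'.le,
                  mul_inv_cancel₀ hn0'.ne', ENNReal.ofReal_one]
            _ ≤ _ := le_add_self
    _ = atOrigin G + 1 := by
        rw [lintegral_add_right _ measurable_const, lintegral_const, measure_univ, one_mul]
        rfl

/-- The lower bound for the MLE at the origin. -/
theorem IsMLE.sum_le_atOrigin [NeZero n] {x : Fin n → Fin d → ℝ} {G : Measure (Fin d → ℝ)}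
    (h : IsMLE x G) (hx : ∀ i, x i ∈ orthant d) (I : Finset (Fin n))
    (hI : ∀ i ∈ I, ∀ j ∈ I, i ≠ j → (n : ℝ) ≤ ∏ r, max (x i r) (x j r)) :
    ENNReal.ofReal (∑ i ∈ I, (4 * n * ∏ r, x i r)⁻¹ - 1) ≤ atOrigin G := by
  have h1 : ∑ i ∈ I, ENNReal.ofReal (4 * n * ∏ r, x i r)⁻¹ ≤ atOrigin G + 1 :=
    (Finset.sum_le_sum fun i _ => h.dens_ge hx i).trans (sum_dens_le h.mixing I hI hx)
  rw [← ENNReal.ofReal_sum_of_nonneg] at h1
  · rw [ENNReal.ofReal_sub _ zero_le_one, ENNReal.ofReal_one]
    exact tsub_le_iff_right.2 h1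
  · intro i _
    have := prod_pos_of_mem (hx i)
    positivity

end Pool.Agent.Helper26.SMU
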