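import Pool.Agent.Helper26.SMU.Law

/-!
# Probability estimates for the latent variables
-/

open MeasureTheory ProbabilityTheory Filter Topology
open scoped ENNReal

namespace Pool.Agent.Helper26.SMU

/-- Chebyshev's inequality for the lower tail of a sum of i.i.d. bounded variables -/
theorem cheb {Ω : Type*} [MeasurableSpace Ω] (ν : Measure Ω) [IsProbabilityMeasure ν] {ξ : Ω → ℝ}
    (hξ : Measurable ξ) {C : ℝ} (hC : ∀ ω, |ξ ω| ≤ C) {v : ℝ} (hv : ∫ ω, ξ ω ^ 2 ∂ν ≤ v)
    {m : ℝ} (hmeq : ∫ ω, ξ ω ∂ν = m) (hm : 0 < m) {n : ℕ} (hn : 0 < n) :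
    Measure.pi (fun _ : Fin n => ν) {ω | ∑ i, ξ (ω i) ≤ n * m / 2} ≤
      ENNReal.ofReal (4 * v / (n * m ^ 2)) := by
  set Q := Measure.pi (fun _ : Fin n => ν) with hQ
  set S : (Fin n → Ω) → ℝ := ∑ i, fun ω => ξ (ω i) with hS
  have hn' : (0 : ℝ) < n := by exact_mod_cast hn
  have hmem : MemLp ξ 2 ν := MemLp.of_bound hξ.aestronglyMeasurable C
    (Eventually.of_forall fun ω => by simpa using hC ω)
  have hmemi : ∀ i, MemLp (fun ω : Fin n → Ω => ξ (ω i)) 2 Q := fun i =>
    hmem.comp_measurePreserving (measurePreserving_eval (fun _ : Fin n => ν) i)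
  have hmemS : MemLp S 2 Q := memLp_finsetSum' _ (fun i _ => hmemi i)
  have hES : ∫ ω, S ω ∂Q = n * m := by
    have h1 : ∀ i, ∫ ω, ξ (ω i) ∂Q = m := by
      intro i
      rw [← hmeq, ← (measurePreserving_eval (fun _ : Fin n => ν) i).map_eq,
        integral_map (measurable_pi_apply i).aemeasurable hξ.aestronglyMeasurable]
    simp only [hS, Finset.sum_apply]
    rw [integral_finsetSum _ fun i _ => (hmemi i).integrable (by norm_num)]
    simp [h1]
  have hVar : variance S Q ≤ n * v := by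
    rw [hS, hQ, variance_sum_pi (μ := fun _ : Fin n => ν) (X := fun _ => ξ) (fun _ => hmem)]
    have h1 : variance ξ ν ≤ v := (variance_le_expectation_sq hξ.aestronglyMeasurable).trans
      (by simpa using hv)
    rw [Finset.sum_const, Finset.card_univ, Fintype.card_fin, nsmul_eq_mul]
    gcongr
  have hcheb := meas_ge_le_variance_div_sq hmemS (c := n * m / 2) (by positivity)
  refine (measure_mono ?_).trans (hcheb.trans (ENNReal.ofReal_le_ofReal ?_))
  · intro ω hω
    have hω' : S ω ≤ n * m / 2 := by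
      have : ∑ i, ξ (ω i) ≤ n * m / 2 := hω
      simpa [hS] using this
    show (n : ℝ) * m / 2 ≤ |S ω - ∫ ω, S ω ∂Q|
    rw [hES, abs_sub_comm]
    refine le_trans ?_ (le_abs_self _)
    linarith
  · calc variance S Q / (n * m / 2) ^ 2 ≤ (n * v) / (n * m / 2) ^ 2 := by gcongr
      _ = 4 * v / (n * m ^ 2) := by field_simp; ring

/-- `g_b(u) = 1{u ≥ b}/u` -/
noncomputable def gg (b u : ℝ) : ℝ := (Set.Ici b).indicator (fun u => u⁻¹) u

theorem measurable_gg (b : ℝ) : Measurable (gg b) :=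
  measurable_inv.indicator measurableSet_Ici

theorem gg_nonneg {b : ℝ} (hb : 0 < b) (u : ℝ) : 0 ≤ gg b u := by
  unfold gg
  apply Set.indicator_nonneg
  intro u hu
  have : b ≤ u := hu
  have : 0 < u := hb.trans_le this
  positivity

theorem gg_le {b : ℝ} (hb : 0 < b) (u : ℝ) : gg b u ≤ b⁻¹ := by
  unfold gg
  by_cases h : u ∈ Set.Ici b
  · rw [Set.indicator_of_mem h]
    exact inv_anti₀ hb h
  · rw [Set.indicator_of_notMem h]
    positivity

theorem integral_gg {b : ℝ} (hb : 0 < b) (hb1 : b ≤ 1) : ∫ u, gg b u ∂unif = -Real.log b := by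
  have h1 : (Set.Ioc (0 : ℝ) 1) ∩ Set.Ici b = Set.Icc b 1 := by
    ext u
    simp only [Set.mem_inter_iff, Set.mem_Ioc, Set.mem_Ici, Set.mem_Icc]
    constructor
    · rintro ⟨⟨h1, h2⟩, h3⟩; exact ⟨h3, h2⟩
    · rintro ⟨h1, h2⟩; exact ⟨⟨hb.trans_le h1, h2⟩, h1⟩
  unfold unif gg
  rw [setIntegral_indicator measurableSet_Ici, h1, integral_Icc_eq_integral_Ioc,
    ← intervalIntegral.integral_of_le hb1, integral_inv_of_pos hb one_pos,
    Real.log_div one_ne_zero hb.ne', Real.log_one, zero_sub]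

theorem integral_gg_sq {b : ℝ} (hb : 0 < b) (hb1 : b ≤ 1) : ∫ u, gg b u ^ 2 ∂unif ≤ b⁻¹ := by
  have h1 : (Set.Ioc (0 : ℝ) 1) ∩ Set.Ici b = Set.Icc b 1 := by
    ext u
    simp only [Set.mem_inter_iff, Set.mem_Ioc, Set.mem_Ici, Set.mem_Icc]
    constructor
    · rintro ⟨⟨h1, h2⟩, h3⟩; exact ⟨h3, h2⟩
    · rintro ⟨h1, h2⟩; exact ⟨⟨hb.trans_le h1, h2⟩, h1⟩
  have h2 : ∀ u, gg b u ^ 2 = (Set.Ici b).indicator (fun u => u ^ (-2 : ℤ)) u := by
    intro u
    unfold gg
    by_cases h : u ∈ Set.Ici b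
    · rw [Set.indicator_of_mem h, Set.indicator_of_mem h]
      rw [zpow_neg, inv_pow]
      norm_cast
    · rw [Set.indicator_of_notMem h, Set.indicator_of_notMem h]
      norm_num
  simp_rw [h2]
  unfold unif
  rw [setIntegral_indicator measurableSet_Ici, h1, integral_Icc_eq_integral_Ioc,
    ← intervalIntegral.integral_of_le hb1, integral_zpow]
  · have h3 : (0 : ℝ) < b⁻¹ := by positivity
    norm_num
    rw [div_neg, div_one]
    linarith
  · right
    refine ⟨by norm_num, ?_⟩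
    rw [Set.uIcc_of_le hb1]
    intro h
    exact absurd h.1 (not_le.2 hb)

/-- the indicator of `v ≤ a` -/
noncomputable def hh (a v : ℝ) : ℝ := (Set.Iic a).indicator (fun _ => 1) v

theorem measurable_hh (a : ℝ) : Measurable (hh a) :=
  measurable_const.indicator measurableSet_Iic

theorem hh_nonneg (a v : ℝ) : 0 ≤ hh a v := Set.indicator_nonneg (fun _ _ => zero_le_one) v

theorem hh_le (a v : ℝ) : hh a v ≤ 1 := Set.indicator_le_self' (fun _ _ => zero_le_one) v

theorem hh_sq (a v : ℝ) : hh a v ^ 2 = hh a v := by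
  unfold hh
  by_cases h : v ∈ Set.Iic a
  · rw [Set.indicator_of_mem h]; norm_num
  · rw [Set.indicator_of_notMem h]; norm_num

theorem integral_hh {a : ℝ} (ha : 0 ≤ a) (ha1 : a ≤ 1) : ∫ v, hh a v ∂unif = a := by
  have h1 : (Set.Ioc (0 : ℝ) 1) ∩ Set.Iic a = Set.Ioc 0 a := by
    ext u
    simp only [Set.mem_inter_iff, Set.mem_Ioc, Set.mem_Iic]
    constructor
    · rintro ⟨⟨h1, h2⟩, h3⟩; exact ⟨h1, h3⟩
    · rintro ⟨h1, h2⟩; exact ⟨⟨h1, h2.trans ha1⟩, h2⟩
  unfold unif hh
  rw [setIntegral_indicator measurableSet_Iic, h1, setIntegral_const]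
  simp [ha]

variable {d : ℕ}

/-- law of a latent pair `(U, V)` -/
noncomputable def lat (d : ℕ) : Measure ((Fin d → ℝ) × ℝ) := (unifPi d).prod unif

instance : IsProbabilityMeasure (lat d) := by unfold lat; infer_instance

/-- `ξ(u,v) = 1{v ≤ a} ∏_r 1{u_r ≥ b}/u_r` -/
noncomputable def xi (a b : ℝ) (p : (Fin d → ℝ) × ℝ) : ℝ := (∏ r, gg b (p.1 r)) * hh a p.2

theorem measurable_xi (a b : ℝ) : Measurable (xi (d := d) a b) := by
  apply Measurable.mul
  · refine Finset.measurable_prod _ fun r _ => ?_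
    exact (measurable_gg b).comp ((measurable_pi_apply r).comp measurable_fst)
  · exact (measurable_hh a).comp measurable_snd

theorem xi_nonneg {a b : ℝ} (hb : 0 < b) (p : (Fin d → ℝ) × ℝ) : 0 ≤ xi a b p :=
  mul_nonneg (Finset.prod_nonneg fun r _ => gg_nonneg hb _) (hh_nonneg _ _)

theorem xi_le {a b : ℝ} (hb : 0 < b) (p : (Fin d → ℝ) × ℝ) : |xi a b p| ≤ (b⁻¹) ^ d := by
  rw [abs_of_nonneg (xi_nonneg hb p)]
  calc xi a b p ≤ (∏ r : Fin d, b⁻¹) * 1 := by
        unfold xi
        apply mul_le_mul _ (hh_le _ _) (hh_nonneg _ _)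
        · positivity
        · exact Finset.prod_le_prod (fun _ _ => gg_nonneg hb _) fun _ _ => gg_le hb _
    _ = _ := by simp

theorem integral_xi {a b : ℝ} (hb : 0 < b) (hb1 : b ≤ 1) (ha : 0 ≤ a) (ha1 : a ≤ 1) :
    ∫ p, xi a b p ∂(lat d) = (-Real.log b) ^ d * a := by
  unfold xi lat
  rw [integral_prod_mul (fun u : Fin d → ℝ => ∏ r, gg b (u r)) (hh a), integral_hh ha ha1]
  unfold unifPi
  rw [integral_fintype_prod_eq_pow (gg b), integral_gg hb hb1, Fintype.card_fin]

theorem integral_xi_sq {a b : ℝ} (hb : 0 < b) (hb1 : b ≤ 1) (ha : 0 ≤ a) (ha1 : a ≤ 1) :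
    ∫ p, xi a b p ^ 2 ∂(lat d) ≤ (b⁻¹) ^ d * a := by
  have h1 : ∀ p : (Fin d → ℝ) × ℝ, xi a b p ^ 2 = (∏ r, gg b (p.1 r) ^ 2) * hh a p.2 := by
    intro p
    unfold xi
    rw [mul_pow, hh_sq, Finset.prod_pow]
  simp_rw [h1]
  unfold lat
  rw [integral_prod_mul (fun u : Fin d → ℝ => ∏ r, gg b (u r) ^ 2) (hh a), integral_hh ha ha1]
  unfold unifPi
  rw [integral_fintype_prod_eq_pow (fun u => gg b u ^ 2), Fintype.card_fin]
  have h2 : 0 ≤ ∫ u, gg b u ^ 2 ∂unif := integral_nonneg fun u => sq_nonneg (gg b u)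
  have h3 := integral_gg_sq hb hb1
  gcongr

/-- two of the latent variables `V_i`, `V_j` are at distance less than `δ` with probability
at most `2δ` -/
theorem close_pair {n : ℕ} {i j : Fin n} (hij : i ≠ j) (δ : ℝ) :
    Measure.pi (fun _ : Fin n => lat d) {ω | |(ω i).2 - (ω j).2| < δ} ≤
      ENNReal.ofReal (2 * δ) := by
  set Q := Measure.pi (fun _ : Fin n => lat d) with hQ
  have hind : iIndepFun (fun (i : Fin n) (ω : Fin n → (Fin d → ℝ) × ℝ) => (ω i).2) Q :=
    iIndepFun_pi (X := fun (_ : Fin n) (p : (Fin d → ℝ) × ℝ) => p.2)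
      (fun _ => measurable_snd.aemeasurable)
  have hm : ∀ i : Fin n, Measurable fun ω : Fin n → (Fin d → ℝ) × ℝ => (ω i).2 := fun i =>
    measurable_snd.comp (measurable_pi_apply i)
  have h2 := (indepFun_iff_map_prod_eq_prod_map_map (hm i).aemeasurable
    (hm j).aemeasurable).1 (hind.indepFun hij)
  have hlaw : ∀ i : Fin n, Q.map (fun ω : Fin n → (Fin d → ℝ) × ℝ => (ω i).2) = unif := by
    intro i
    have h3 : (fun ω : Fin n → (Fin d → ℝ) × ℝ => (ω i).2) = Prod.snd ∘ Function.eval i := rfl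
    rw [h3, ← Measure.map_map measurable_snd (measurable_pi_apply i),
      (measurePreserving_eval (fun _ : Fin n => lat d) i).map_eq, lat, ← Measure.snd,
      Measure.snd_prod]
  rw [hlaw, hlaw] at h2
  have hS : MeasurableSet {p : ℝ × ℝ | |p.1 - p.2| < δ} :=
    measurableSet_lt (measurable_fst.sub measurable_snd).abs measurable_const
  have h4 : Q {ω | |(ω i).2 - (ω j).2| < δ} = (unif.prod unif) {p : ℝ × ℝ | |p.1 - p.2| < δ} := by
    rw [← h2, Measure.map_apply ((hm i).prodMk (hm j)) hS]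
    rfl
  rw [h4, Measure.prod_apply hS]
  calc ∫⁻ x, unif (Prod.mk x ⁻¹' {p : ℝ × ℝ | |p.1 - p.2| < δ}) ∂unif
      ≤ ∫⁻ _, ENNReal.ofReal (2 * δ) ∂unif := by
        apply lintegral_mono
        intro x
        calc unif (Prod.mk x ⁻¹' {p : ℝ × ℝ | |p.1 - p.2| < δ})
            ≤ volume (Prod.mk x ⁻¹' {p : ℝ × ℝ | |p.1 - p.2| < δ}) :=
              Measure.restrict_apply_le _ _
          _ ≤ volume (Set.Ioo (x - δ) (x + δ)) := by
              apply measure_mono
              intro y hy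
              have : |x - y| < δ := hy
              rw [abs_lt] at this
              exact ⟨by linarith, by linarith⟩
          _ = ENNReal.ofReal (2 * δ) := by
              rw [Real.volume_Ioo]; congr 1; ring
    _ = ENNReal.ofReal (2 * δ) := by simp

theorem close_pairs {n : ℕ} (δ : ℝ) :
    Measure.pi (fun _ : Fin n => lat d) {ω | ∃ i j, i ≠ j ∧ |(ω i).2 - (ω j).2| < δ} ≤
      ENNReal.ofReal ((n : ℝ) ^ 2 * (2 * δ)) := by
  set Q := Measure.pi (fun _ : Fin n => lat d) with hQ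
  calc Q {ω | ∃ i j, i ≠ j ∧ |(ω i).2 - (ω j).2| < δ}
      ≤ Q (⋃ i ∈ (Finset.univ : Finset (Fin n)), ⋃ j ∈ (Finset.univ : Finset (Fin n)),
          {ω | i ≠ j ∧ |(ω i).2 - (ω j).2| < δ}) := by
        apply measure_mono
        rintro ω ⟨i, j, h⟩
        simp only [Set.mem_iUnion]
        exact ⟨i, Finset.mem_univ _, j, Finset.mem_univ _, h⟩
    _ ≤ ∑ i, ∑ j, Q {ω | i ≠ j ∧ |(ω i).2 - (ω j).2| < δ} := by
        refine (measure_biUnion_finset_le _ _).trans (Finset.sum_le_sum fun i _ => ?_)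
        exact measure_biUnion_finset_le _ _
    _ ≤ ∑ i : Fin n, ∑ j : Fin n, ENNReal.ofReal (2 * δ) := by
        apply Finset.sum_le_sum
        intro i _
        apply Finset.sum_le_sum
        intro j _
        by_cases hij : i = j
        · have : {ω : Fin n → (Fin d → ℝ) × ℝ | i ≠ j ∧ |(ω i).2 - (ω j).2| < δ} = ∅ := by
            ext ω; simp [hij]
          rw [this, measure_empty]
          exact zero_le
        · refine le_trans (measure_mono ?_) (close_pair hij δ)
          intro ω hω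
          exact hω.2
    _ = ENNReal.ofReal ((n : ℝ) ^ 2 * (2 * δ)) := by
        simp only [Finset.sum_const, Finset.card_univ, Fintype.card_fin, nsmul_eq_mul]
        rw [← mul_assoc, ← ENNReal.ofReal_natCast, ← ENNReal.ofReal_mul (by positivity),
          ← ENNReal.ofReal_mul (by positivity), sq]

end Pool.Agent.Helper26.SMU
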